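import Mathlib

namespace Pool.Agent.Results.MP_b358a5_co.Separate

open MvPolynomial

/-- nonzero polynomials over the naturals with zero constant term and degree at most d in each
variable -/
def P (d : ℕ) : Set (MvPolynomial ℕ ℕ) :=
  {p | p ≠ 0 ∧ constantCoeff p = 0 ∧ ∀ n, degreeOf n p ≤ d}

/-- a copy of the pattern F in S -/
def IsCopy {m k : ℕ} (S : Set (MvPolynomial ℕ ℕ)) (F : Fin k → MvPolynomial (Fin m) ℕ)
    (a : Fin m → MvPolynomial ℕ ℕ) : Prop :=
  (∀ t, a t ∈ S) ∧ ∀ l, aeval a (F l) ∈ S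

/-- partition regularity over S -/
def PR {m k : ℕ} (S : Set (MvPolynomial ℕ ℕ)) (F : Fin k → MvPolynomial (Fin m) ℕ) : Prop :=
  ∀ (r : ℕ) (χ : MvPolynomial ℕ ℕ → Fin r), ∃ a, IsCopy S F a ∧
    ∀ l l', χ (aeval a (F l)) = χ (aeval a (F l'))

lemma smul {p q : MvPolynomial ℕ ℕ} {m : ℕ →₀ ℕ} :
    m ∈ (p * q).support ↔ ∃ u ∈ p.support, ∃ v ∈ q.support, u + v = m := by
  simp only [mem_support_iff, coeff_mul, ne_eq, Finset.sum_eq_zero_iff, Finset.HasAntidiagonal.mem_antidiagonal,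
    mul_eq_zero, Prod.forall]
  push Not
  constructor
  · rintro ⟨u, v, h, h1, h2⟩
    exact ⟨u, h1, v, h2, h⟩
  · rintro ⟨u, h1, v, h2, h⟩
    exact ⟨u, v, h, h1, h2⟩

lemma sadd {p q : MvPolynomial ℕ ℕ} {m : ℕ →₀ ℕ} :
    m ∈ (p + q).support ↔ m ∈ p.support ∨ m ∈ q.support := by
  simp only [mem_support_iff, coeff_add]
  omega

lemma nz {p : MvPolynomial ℕ ℕ} (h : constantCoeff p = 0) {m : ℕ →₀ ℕ} (hm : m ∈ p.support) :
    ∃ n, m n ≠ 0 := by
  by_contra hn
  push Not at hn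
  have : m = 0 := Finsupp.ext hn
  subst this
  exact mem_support_iff.mp hm h

lemma nonprod {i : ℕ} {a b c d : MvPolynomial ℕ ℕ} (ha : constantCoeff a = 0)
    (hb : constantCoeff b = 0) (hc : c ≠ 0) (hd : d ≠ 0)
    (hdeg : ∀ n, degreeOf n (c ^ i * d + c + d) ≤ i) : c ^ i * d + c + d ≠ a * b := by
  intro E
  have dis : ∀ n, degreeOf n c = 0 ∨ degreeOf n d = 0 := by
    intro n
    have h1 : degreeOf n (c ^ i * d) ≤ i := by
      refine degreeOf_le_iff.mpr fun m hm => le_trans (monomial_le_degreeOf n ?_) (hdeg n)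
      exact sadd.mpr (Or.inl (sadd.mpr (Or.inl hm)))
    rw [degreeOf_mul_eq (pow_ne_zero _ hc) hd, degreeOf_pow_eq _ _ _ hc] at h1
    by_contra hn
    have : i * 1 ≤ i * degreeOf n c := Nat.mul_le_mul_left _ (by omega)
    omega
  obtain ⟨κ, hκ⟩ := support_nonempty.mpr hc
  obtain ⟨μ, hμ, μ', -, e1⟩ := smul.mp (E ▸ sadd.mpr (Or.inl (sadd.mpr (Or.inr hκ))))
  have μle : ∀ n, μ n ≤ degreeOf n c := by
    intro n
    have := monomial_le_degreeOf n hκ
    rw [← e1] at this
    simp only [Finsupp.coe_add, Pi.add_apply] at this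
    omega
  have key : ∀ s, ∀ ν ∈ d.support, ν.degree = s → False := by
    intro s
    induction s using Nat.strong_induction_on with
    | _ s ih =>
      intro l hl hs
      obtain ⟨α, hα, ν, hν, e2⟩ := smul.mp (E ▸ sadd.mpr (Or.inr hl))
      have νle : ∀ n, ν n ≤ degreeOf n d := by
        intro n
        have := monomial_le_degreeOf n hl
        rw [← e2] at this
        simp only [Finsupp.coe_add, Pi.add_apply] at this
        omega
      have hlt : ν.degree < s := by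
        obtain ⟨n, hn⟩ := nz ha hα
        have := Finsupp.le_degree n α
        rw [← hs, ← e2, map_add]
        omega
      refine ih _ hlt ν ?_ rfl
      have h3 : μ + ν ∈ (c ^ i * d + c + d).support := E ▸ smul.mpr ⟨μ, hμ, ν, hν, rfl⟩
      rcases sadd.mp h3 with h4 | h4
      · rcases sadd.mp h4 with h4 | h4
        · obtain ⟨k', hk', l', hl', e3⟩ := smul.mp h4
          have : l' = ν := by
            ext n
            have f1 := monomial_le_degreeOf n hk'
            have f2 := monomial_le_degreeOf n hl'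
            have f3 := DFunLike.congr_fun e3 n
            have f4 := degreeOf_pow_le n c i
            have f5 := μle n
            have f6 := νle n
            simp only [Finsupp.coe_add, Pi.add_apply] at f3
            rcases dis n with h | h
            · rw [h] at f4; omega
            · omega
          exact this ▸ hl'
        · exfalso
          obtain ⟨n, hn⟩ := nz hb hν
          have f1 := monomial_le_degreeOf n h4
          have := νle n
          have := dis n
          simp only [Finsupp.coe_add, Pi.add_apply] at f1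
          omega
      · exfalso
        obtain ⟨n, hn⟩ := nz ha hμ
        have f1 := monomial_le_degreeOf n h4
        have := μle n
        have := dis n
        simp only [Finsupp.coe_add, Pi.add_apply] at f1
        omega
  obtain ⟨l, hl⟩ := support_nonempty.mpr hd
  exact key _ l hl rfl

noncomputable def F (i : ℕ) : Fin 2 → MvPolynomial (Fin 4) ℕ :=
  ![X 0 * X 1, X 2 ^ i * X 3 + X 2 + X 3]

lemma ne0 {p : MvPolynomial ℕ ℕ} (h : eval (fun _ => 1) p ≠ 0) : p ≠ 0 := by
  rintro rfl; simp at h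

noncomputable def mon (x y z a b c : ℕ) : MvPolynomial ℕ ℕ := X x ^ a * X y ^ b * X z ^ c

lemma mon_deg {x y z a b c j : ℕ} (h1 : x ≠ y) (h2 : x ≠ z) (h3 : y ≠ z) (ha : a ≤ j) (hb : b ≤ j)
    (hc : c ≤ j) (n : ℕ) : degreeOf n (mon x y z a b c) ≤ j := by
  have k : ∀ w e : ℕ, degreeOf n ((X w : MvPolynomial ℕ ℕ) ^ e) ≤ if n = w then e else 0 := by
    intro w e
    refine (degreeOf_pow_le _ _ _).trans ?_
    rw [degreeOf_X]
    split_ifs <;> simp
  have e1 := degreeOf_mul_le n (X x ^ a * X y ^ b : MvPolynomial ℕ ℕ) (X z ^ c)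
  have e2 := degreeOf_mul_le n (X x ^ a : MvPolynomial ℕ ℕ) (X y ^ b)
  have e3 := k x a
  have e4 := k y b
  have e5 := k z c
  unfold mon
  split_ifs at e3 e4 e5 <;> omega

lemma mon_mem {x y z a b c j : ℕ} (h1 : x ≠ y) (h2 : x ≠ z) (h3 : y ≠ z) (ha : a ≤ j) (hb : b ≤ j)
    (hc : c ≤ j) (h : a ≠ 0 ∨ b ≠ 0 ∨ c ≠ 0) : mon x y z a b c ∈ P j := by
  refine ⟨ne0 (by simp [mon]), ?_, mon_deg h1 h2 h3 ha hb hc⟩
  simp [mon]
  tauto

lemma add_mem {j : ℕ} {p q : MvPolynomial ℕ ℕ} (hp : p ∈ P j) (hq : q ∈ P j) : p + q ∈ P j := by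
  refine ⟨?_, by rw [map_add, hp.2.1, hq.2.1], fun n =>
    (degreeOf_add_le _ _ _).trans (max_le (hp.2.2 n) (hq.2.2 n))⟩
  obtain ⟨m, hm⟩ := support_nonempty.mpr hp.1
  exact support_nonempty.mp ⟨m, sadd.mpr (Or.inl hm)⟩

noncomputable def g (i k : ℕ) : MvPolynomial ℕ ℕ :=
  mon (3 * k) (3 * k + 1) (3 * k + 2) (i + 1) i 1 + mon (3 * k) (3 * k + 1) (3 * k + 2) 1 1 0 +
    mon (3 * k) (3 * k + 1) (3 * k + 2) 1 0 1

lemma strong {i j : ℕ} (hij : i < j) (r : ℕ) (χ : MvPolynomial ℕ ℕ → Fin r) :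
    ∃ a, IsCopy (P j) (F i) a ∧ Function.Injective (fun l => aeval a (F i l)) ∧
      ∀ l l', χ (aeval a (F i l)) = χ (aeval a (F i l')) := by
  obtain ⟨k, l, hkl, e⟩ := Finite.exists_ne_map_eq_of_infinite fun k => χ (g i k)
  let a : Fin 4 → MvPolynomial ℕ ℕ := ![mon (3 * k) (3 * k + 1) (3 * k + 2) 1 0 0,
    mon (3 * k) (3 * k + 1) (3 * k + 2) i i 1 + mon (3 * k) (3 * k + 1) (3 * k + 2) 0 1 0 +
      mon (3 * k) (3 * k + 1) (3 * k + 2) 0 0 1,
    mon (3 * l) (3 * l + 1) (3 * l + 2) 1 1 0, mon (3 * l) (3 * l + 1) (3 * l + 2) 1 0 1]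
  have e0 : aeval a (F i 0) = g i k := by simp [F, a, g, mon]; ring
  have e1 : aeval a (F i 1) = g i l := by simp [F, a, g, mon]; ring
  have mm : ∀ k a b c, a ≤ j → b ≤ j → c ≤ j → (a ≠ 0 ∨ b ≠ 0 ∨ c ≠ 0) →
      mon (3 * k) (3 * k + 1) (3 * k + 2) a b c ∈ P j :=
    fun k a b c => mon_mem (by omega) (by omega) (by omega)
  have gm : ∀ k, g i k ∈ P j := fun k =>
    add_mem (add_mem (mm _ _ _ _ (by omega) (by omega) (by omega) (by omega))
      (mm _ _ _ _ (by omega) (by omega) (by omega) (by omega)))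
      (mm _ _ _ _ (by omega) (by omega) (by omega) (by omega))
  have gne : g i k ≠ g i l := by
    intro h
    have := congrArg (eval fun n => if n = 3 * l then 0 else 1) h
    have n1 : 3 * k + 1 ≠ 3 * l := by omega
    have n2 : 3 * k + 2 ≠ 3 * l := by omega
    simp [g, mon, hkl, n1, n2] at this
  refine ⟨a, ⟨fun t => ?_, ?_⟩, ?_, ?_⟩
  · fin_cases t
    · exact mm _ _ _ _ (by omega) (by omega) (by omega) (by omega)
    · exact add_mem (add_mem (mm _ _ _ _ (by omega) (by omega) (by omega) (by omega))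
        (mm _ _ _ _ (by omega) (by omega) (by omega) (by omega)))
        (mm _ _ _ _ (by omega) (by omega) (by omega) (by omega))
    · exact mm _ _ _ _ (by omega) (by omega) (by omega) (by omega)
    · exact mm _ _ _ _ (by omega) (by omega) (by omega) (by omega)
  · rw [Fin.forall_fin_two, e0, e1]
    exact ⟨gm k, gm l⟩
  · intro x y
    revert x y
    simp only [Fin.forall_fin_two, e0, e1]
    simp [gne, gne.symm]
  · simp only [Fin.forall_fin_two, e0, e1]
    simp [e]

theorem result (i j : ℕ) (hi : 1 ≤ i) (hij : i < j) :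
    ∃ (m k : ℕ) (F : Fin k → MvPolynomial (Fin m) ℕ), (∀ l, constantCoeff (F l) = 0) ∧
      (∃ a, IsCopy (P i) F a) ∧ PR (P j) F ∧ ¬ PR (P i) F ∧
      ∀ (r : ℕ) (χ : MvPolynomial ℕ ℕ → Fin r), ∃ a, IsCopy (P j) F a ∧
        Function.Injective (fun l => aeval a (F l)) ∧
        ∀ l l', χ (aeval a (F l)) = χ (aeval a (F l')) := by
  classical
  refine ⟨4, 2, F i, ?_, ?_, fun r χ => ?_, fun h => ?_, strong hij⟩
  · rw [Fin.forall_fin_two]
    simp [F]
  · have mm : ∀ a b c, a ≤ i → b ≤ i → c ≤ i → (a ≠ 0 ∨ b ≠ 0 ∨ c ≠ 0) → mon 0 1 2 a b c ∈ P i :=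
      fun a b c => mon_mem (by omega) (by omega) (by omega)
    refine ⟨![mon 0 1 2 1 0 0, mon 0 1 2 0 1 0, mon 0 1 2 1 0 0, mon 0 1 2 0 1 0], fun t => ?_, ?_⟩
    · fin_cases t <;> exact mm _ _ _ (by omega) (by omega) (by omega) (by omega)
    · rw [Fin.forall_fin_two]
      constructor
      · convert mm 1 1 0 (by omega) (by omega) (by omega) (by omega) using 1
        simp [F, mon]
      · convert add_mem (add_mem (mm i 1 0 (by omega) (by omega) (by omega) (by omega))
          (mm 1 0 0 (by omega) (by omega) (by omega) (by omega)))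
          (mm 0 1 0 (by omega) (by omega) (by omega) (by omega)) using 1
        simp [F, mon]
  · obtain ⟨a, h1, -, h2⟩ := strong hij r χ
    exact ⟨a, h1, h2⟩
  · obtain ⟨a, ⟨h1, h2⟩, h3⟩ := h 2 fun p =>
      if ∃ u v, constantCoeff u = 0 ∧ constantCoeff v = 0 ∧ p = u * v then 0 else 1
    have e0 : aeval a (F i 0) = a 0 * a 1 := by simp [F]
    have e1 : aeval a (F i 1) = a 2 ^ i * a 3 + a 2 + a 3 := by simp [F]
    have h4 := h3 0 1
    have h5 := (h2 1).2.2
    rw [e1] at h5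
    rw [e0, e1, if_pos ⟨_, _, (h1 0).2.1, (h1 1).2.1, rfl⟩, if_neg] at h4
    · simp at h4
    · rintro ⟨u, v, hu, hv, e⟩
      exact nonprod hu hv (h1 2).1 (h1 3).1 h5 e

end Pool.Agent.Results.MP_b358a5_co.Separate
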